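import Pool.Agent.Y377.IR.Num
import Pool.Agent.Y377.AO.Proj
import Pool.Agent.Y377.AO.Conn2

set_option autoImplicit false

/-!
# Lang's equivalence for iterated linear recurrences and differential equations

Let `X` and `Z` be the projective varieties over a number field `K`, embedded in `ℂ` by `σ`, given by
the forms in the ideals `I` and `I'` of `K[x_0, ..., x_N]` (for `I' = ⊤` the variety `Z` is empty).

Let `H` be a group. We consider the rings of functions on `H` (`FTow`) which are obtained from the
ring of the constants `ℂ` in finitely many steps of the following kind: the entries of an invertible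
matrix `X(h)` of functions and of its inverse are added to the ring `R`, where for all `g` in `H` the
entries of `X(gh) X(h)⁻¹`, as functions of `h`, belong to `R`. For the integers these functions are
given by iterated recurrences (`IterRec`): the set of these sequences contains the constants and is
closed under sums, products and solutions of systems `y(n + 1) = A(n) y(n)` such that the entries of
`A` and of `A⁻¹` belong to the set. So the coefficients of the recurrences can be any functions which
have been obtained before, for example `2 ^ n`, then `2 ^ (n ^ 2)` and the continuants with the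
partial denominators `2 ^ n + n`, and so on.

The following are equivalent:

* (`NoRat`) there is no nonconstant map from the projective line over `ℂ` to `X` with image not
  contained in `Z`;
* (`IterCurves`) all nonconstant entire curves in `X` with homogeneous coordinates given by iterated
  linear differential equations (the smallest set of meromorphic functions on the plane which
  contains the constants and is closed under sums, products and meromorphic solutions of systems
  `y' = A y` with coefficients in the set) lie in `Z`;
* (`IteratedFinite`) for all fields `L ⊇ K` in `ℂ`, all groups `H` and all families of points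
  `P(h)` of `X(L)`, `h ∈ H`, with homogeneous coordinates in a ring of functions as above, only
  finitely many of the points are outside `Z`;
* (`SequenceFinite`) the same for number fields `L` and sequences of points of `X(L)` (indexed by the
  integers) with homogeneous coordinates given by iterated recurrences;
* (`DegreeBound`) for ALL groups and representations `ρ : H → GL_r(L)` over number fields `L ⊇ K` of
  degree at most `D` over `ℚ`, at most `∏_{f = 1}^{D} |GL_r(𝔽_{2^f})| |GL_r(𝔽_{3^f})|` points with
  coordinates `M ρ(h) v` of an orbit on `X` are outside `Z`.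

Both sides of Lang's conjecture, for `Z` instead of the empty set, imply these conditions.

The parts of the proof are due to helpers 312, 657, 921, 987, 523, 737, 495, 68, 401, 529 and to the
authors of the files on iterated linear differential equations (`Y377/IL`).
-/

namespace Pool.Agent.Results.MP_f82ddf_nt.IteratedLang

open MvPolynomial Pool.Agent.Y719.SU Pool.Agent.TH717.GO Pool.Agent.Y377.AO Pool.Agent.Y377.IR

variable {K : Type} [Field K] {N : ℕ}

/-- uniform bound for all groups of matrices over number fields of bounded degree -/
def DegreeBound (I I' : Ideal (MvPolynomial (Fin (N + 1)) K)) : Prop :=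
  ∀ (r D : ℕ) (L : Type) [Field L] [NumberField L] [Algebra K L], Module.finrank ℚ L ≤ D →
    ∀ (H : Type) [Group H] (ρ : H →* Matrix.GeneralLinearGroup (Fin r) L)
      (M : Matrix (Fin (N + 1)) (Fin r) L) (v : Fin r → L),
      (∀ h, OnI (algebraMap K L) I (orb M ρ v h)) →
      (orbitPts M ρ v \ Pts L I').encard ≤ (∏ f ∈ Finset.Icc 1 D,
        ((∏ i ∈ Finset.range r, ((2 ^ f) ^ r - (2 ^ f) ^ i)) *
          ∏ i ∈ Finset.range r, ((3 ^ f) ^ r - (3 ^ f) ^ i)) : ℕ)

theorem cyclic_finite {I I' : Ideal (MvPolynomial (Fin (N + 1)) K)} (hb : DegreeBound I I')
    (r : ℕ) (L : Type) [Field L] [NumberField L] [Algebra K L]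
    (ρ : Multiplicative ℤ →* Matrix.GeneralLinearGroup (Fin r) L)
    (M : Matrix (Fin (N + 1)) (Fin r) L) (v : Fin r → L)
    (h : ∀ h, OnI (algebraMap K L) I (orb M ρ v h)) : (orbitPts M ρ v \ Pts L I').Finite :=
  Set.finite_of_encard_le_coe (hb r _ L le_rfl (Multiplicative ℤ) ρ M v h)

theorem result {K : Type} [Field K] [NumberField K] (σ : K →+* ℂ) {N : ℕ}
    (I I' : Ideal (MvPolynomial (Fin (N + 1)) K)) :
    List.TFAE [NoRat σ I I', IterCurves σ I I', IteratedFinite I I', SequenceFinite I I',
      DegreeBound I I'] ∧
    (Hyperbolic σ I I' → IteratedFinite I I') ∧ (Finiteness I I' → IteratedFinite I I') := by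
  obtain ⟨hm, hhyp, hfin⟩ := main σ I I'
  have e2 : NoRat σ I I' ↔ NoRatNF I I' := hm.out 0 2
  have e3 : NoRat σ I I' ↔ HtBound I I' := hm.out 0 3
  have hmain : List.TFAE [NoRat σ I I', IterCurves σ I I', IteratedFinite I I',
      SequenceFinite I I', DegreeBound I I'] := by
    tfae_have 1 → 2 := iterCurves_of_noRat
    tfae_have 2 → 1 := noRat_of_iterCurves
    tfae_have 1 → 3 := iteratedFinite_of_noRat
    tfae_have 3 → 4 := sequenceFinite_of_iterated
    tfae_have 4 → 1 := fun h => e2.2 (noRatNF_of_sequence h)
    tfae_have 1 → 5 := by
      intro h r D L _ _ _ hD H _ ρ M v hX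
      exact uni_off (e2.1 h) (specDeg_of_numberField L D hD) M ρ v hX
    tfae_have 5 → 1 := by
      intro hb
      refine e2.2 fun L _ _ _ p hp => ?_
      obtain ⟨r, ρ, M, v, h2, h3⟩ := inf_off hp
      exact h3 (cyclic_finite hb r L ρ M v h2)
    tfae_finish
  have h13 : NoRat σ I I' ↔ IteratedFinite I I' := hmain.out 0 2
  exact ⟨hmain, fun h => h13.1 (e3.2 (hhyp h)), fun h => h13.1 (e3.2 (hfin h))⟩

end Pool.Agent.Results.MP_f82ddf_nt.IteratedLang
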