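import Pool.Agent.Y190.NF.Hyp

/-!
MP_f82ddf_nt, Q1: hyperbolicity and rational points for all closed subvarieties of the varieties of
the vectors whose `m`-th powers are the values of a polynomial of degree at most `n < 2 m`.

Let `K` be a number field and let `a_0, ..., a_N` be distinct elements of `K`, `N ≥ 4 n`. The variety
`X_{n,m}(a)` in the projective `N`-space consists of the points `y` for which there is a polynomial
`H` of degree at most `n` such that `y_j ^ m = H(a_j)` for all `j`. It is a smooth complete
intersection of dimension `n`; for `m = 2`, `n = 2, 3`, it is given by the vectors whose squares are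
the values of a polynomial of degree two or three (Büchi's problem and its generalisation).

Let `I` and `I'` be ideals of the polynomial ring over `K`, let `X ⊆ X_{n,m}(a)` and `Z` be the
projective varieties given by the forms in `I` and in `I'` (for `I' = ⊤` the variety `Z` is empty),
and let `σ` be an embedding of `K` into the complex numbers. The definitions `OnI`, `Hyperbolic`,
`NoRat`, `NoRatNF`, `HtBound`, `Finiteness` are in `Pool/Agent/Y719/SU/Def.lean`, `LineIn` and
`NoLineNF` in `Pool/Agent/Y190/NF`.
-/

set_option autoImplicit false

namespace Pool.Agent.Results.MP_f82ddf_nt.PolynomialValueLang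

open Pool.Agent.Y719.SU Pool.Agent.Y190.NF

/-- For every closed subvariety `X` of `X_{n,m}(a)` and every closed `Z` the following are
equivalent:

(1) all nonconstant entire curves in `X_σ` lie in `Z_σ` (for `Z` empty: `X_σ` is hyperbolic);
(2) all nonconstant maps from the projective line over `ℂ` to `X_σ` have image in `Z_σ`;
(3) over all number fields `L` containing `K`, all nonconstant maps from the projective line to `X`
have image in `Z`;
(4) all lines over number fields `L` containing `K` which are contained in `X` are contained in `Z`;
(5) for all `L`, all finitely generated groups `Γ` of rational numbers and all `r` there is a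
constant `C` such that the points of `X(L)` outside of `Z` with homogeneous coordinates
`∑ u_j v_j`, with `r` numbers `u_j` in `Γ` and `r` vectors `v_j` over `L`, have height at most
`C * (1 + h)`, where `h` is the height of the system of the vectors `v_j`.

These conditions hold if `X(L)` has only finitely many points outside of `Z` for all `L`; and they
hold for `σ` if (1) holds for some embedding `τ`. -/
theorem result (K : Type) [Field K] [NumberField K] {n m N : ℕ} (hm : 2 ≤ m) (hnm : n < 2 * m)
    (hN : 4 * n ≤ N) (a : Fin (N + 1) → K) (ha : Function.Injective a)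
    (I I' : Ideal (MvPolynomial (Fin (N + 1)) K)) (σ : K →+* ℂ)
    -- `X` is contained in `X_{n,m}(a)`
    (hX : ∀ y : Fin (N + 1) → ℂ, OnI σ I y → ∃ H : Polynomial ℂ, H.natDegree ≤ n ∧
      ∀ j, y j ^ m = H.eval (σ (a j))) :
    [Hyperbolic σ I I', NoRat σ I I', NoRatNF I I', NoLineNF I I', HtBound I I'].TFAE ∧
    (Finiteness I I' → Hyperbolic σ I I') ∧
    (∀ τ : K →+* ℂ, Hyperbolic τ I I' → Hyperbolic σ I I') := by
  obtain ⟨h1, h2⟩ := lang_main (I' := I') hm hnm (by omega) ha σ hX
  have h14 := (h1.out 0 3 : Hyperbolic σ I I' ↔ NoLineNF I I')
  refine ⟨?_, h2, fun τ h => h14.2 ?_⟩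
  · tfae_have 1 ↔ 2 := h1.out 0 1
    tfae_have 1 ↔ 3 := h1.out 0 2
    tfae_have 1 ↔ 4 := h1.out 0 3
    tfae_have 1 ↔ 5 := h1.out 0 4
    tfae_finish
  · intro L _ _ _ p q hpq
    exact noRatNF_of τ (noRat_of_hyp τ h) L _ hpq.rcur

end Pool.Agent.Results.MP_f82ddf_nt.PolynomialValueLang
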