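import Pool.Agent.Y719.SU.Main

/-!
MP_f82ddf_nt, Q1: the equivalence of hyperbolicity and finiteness of rational points, for the entire
curves with homogeneous coordinates given by short sums of exponentials with polynomial coefficients
and for the rational points with homogeneous coordinates given by short sums of units with
coefficients of small height. The definitions are in `Pool/Agent/Y719/SU/Def.lean`.
-/

set_option autoImplicit false

namespace Pool.Agent.Results.MP_f82ddf_nt.SUnitSumsLang

open Pool.Agent.Y719.SU

variable {K : Type} [Field K] [NumberField K] {N : ℕ}

/-- Let `K` be a number field, embedded in `ℂ` by `σ`, let `X` and `Z` be the projective varieties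
over `K` given by the forms in `I` and `I'` (for `I' = ⊤` the variety `Z` is empty). The following
are equivalent:

(1) there is no nonconstant map from the projective line over `ℂ` to `X` with image not contained in
`Z`;
(2) all nonconstant entire curves in `X` with homogeneous coordinates `∑ exp (g_j) P_j`, with
finitely many entire functions `g_j` and vectors of polynomials `P_j`, lie in `Z`;
(3) over all finite extensions `L` of `K` there is no nonconstant map from the projective line to `X`
with image not contained in `Z`;
(4) for all `L`, all finitely generated groups `Γ` of rational numbers and all `r` there is a
constant `C` such that the points of `X(L)` outside of `Z` with homogeneous coordinates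
`∑ u_j v_j`, with `r` numbers `u_j` in `Γ` and `r` vectors `v_j` over `L`, have height at most
`C * (1 + h)`, where `h` is the height of the system of the vectors `v_j`;
(5) for all `L`, `Γ`, `r` and `B` only finitely many points of `X(L)` outside of `Z` have
homogeneous coordinates `∑ u_j v_j` with `v_j` of height at most `B`.

If all nonconstant entire curves in `X` lie in `Z`, then the conditions hold. If `X(L)` has finitely
many points outside of `Z` for all `L`, then the conditions hold. -/
theorem result (σ : K →+* ℂ) (I I' : Ideal (MvPolynomial (Fin (N + 1)) K)) :
    [NoRat σ I I', ExpSum σ I I', NoRatNF I I', HtBound I I', FinBound I I'].TFAE ∧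
    (Hyperbolic σ I I' → HtBound I I') ∧ (Finiteness I I' → HtBound I I') :=
  main σ I I'

end Pool.Agent.Results.MP_f82ddf_nt.SUnitSumsLang
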