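import Mathlib
import Pool.Agent.Y724.T4.RES9
import Pool.Agent.Y724.T4.EXC
import Pool.Agent.Y724.T4.HTS
import Pool.Agent.Y724.T4.DSN
import Pool.Agent.Y724.T4.SHP
import Pool.Agent.Y724.T4.UNI

set_option autoImplicit false

/-!
# Lang's conjecture on hyperbolicity: the points with sparse coordinates over all number fields of
# bounded degree accumulate only on subvarieties that are not of general type

`X` is a projective variety over `ℚ` with the equations `G k = 0`, of any dimension and with arbitrary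
singularities. By a conjecture of Lang, `X` is hyperbolic if and only if all its closed subvarieties of
positive dimension are of general type. We show that the sparse points `x` of `X` over all number
fields `K` of degree at most `r` satisfy `h(x) ≤ κ d(K) + C` (so that for each `K` there are only
finitely many), except for those on finitely many subvarieties of positive dimension which are NOT of
general type; so without any exception, if all subvarieties of positive dimension are of general type.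
-/

namespace Pool.Agent.Results.MP_f82ddf_nt.SparsePointsAllVarieties

open MvPolynomial NumberField

/-! ### The variety -/

section field
variable {L : Type} [Field L]

/-- `x` represents a point of the variety `X` over the field `L` -/
def OnX {M g : ℕ} (G : Fin g → MvPolynomial (Fin M) ℤ) (x : Fin M → L) : Prop :=
  ∀ k, aeval x (G k) = 0

/-- The columns of `T` are a basis of the tangent space of the affine cone over `X` at `x` (the
vectors orthogonal to all gradients of equations), `X` being smooth of dimension `N` at `x`. -/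
def IsTangentBasis {M N g : ℕ} (G : Fin g → MvPolynomial (Fin M) ℤ) (x : Fin M → L)
    (T : Matrix (Fin M) (Fin (N + 1)) L) : Prop :=
  LinearIndependent L (fun c : Fin (N + 1) => fun j : Fin M => T j c) ∧
    ∀ k c, ∑ j, aeval x (pderiv j (G k)) * T j c = 0

/-- the value of `P` at the coordinates of `x` and the maximal minors of `T` -/
noncomputable def value {M N : ℕ} (P : MvPolynomial (Fin M ⊕ (Fin (N + 1) → Fin M)) ℤ)
    (x : Fin M → L) (T : Matrix (Fin M) (Fin (N + 1)) L) : L :=
  aeval (Sum.elim x (fun J : Fin (N + 1) → Fin M => (T.submatrix J id).det)) P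

end field

/-- The dimension of `X` is at least `N`: some `N + 1` coordinates are algebraically independent on
the cone over `X`. -/
def DimGE {M g : ℕ} (N : ℕ) (G : Fin g → MvPolynomial (Fin M) ℤ) : Prop :=
  ∃ J : Fin (N + 1) → Fin M, ∀ P : MvPolynomial (Fin (N + 1)) ℚ,
    (∀ z : Fin M → ℂ, OnX G z → aeval (fun i => z (J i)) P = 0) → P = 0

/-- `X` is smooth of codimension `s`: at every complex point of `X` the gradients of the equations
span a space of dimension `s`. -/
def IsSmooth {M g : ℕ} (s : ℕ) (G : Fin g → MvPolynomial (Fin M) ℤ) : Prop :=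
  ∀ z : Fin M → ℂ, z ≠ 0 → OnX G z →
    Module.finrank ℂ (Submodule.span ℂ (Set.range fun (k : Fin g) (y : Fin M) =>
      aeval z (pderiv y (G k)))) = s

/-- `X` is irreducible over `ℚ`: if a product of two polynomials vanishes on `X`, then one of them
does. -/
def IsIrreducible {M g : ℕ} (G : Fin g → MvPolynomial (Fin M) ℤ) : Prop :=
  ∀ P Q : MvPolynomial (Fin M) ℚ, (∀ z : Fin M → ℂ, OnX G z → aeval z (P * Q) = 0) →
    (∀ z : Fin M → ℂ, OnX G z → aeval z P = 0) ∨ (∀ z : Fin M → ℂ, OnX G z → aeval z Q = 0)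

/-- `P` is homogeneous of degree `k` in the variables `x i` and of degree `μ` in the variables
`p J`. -/
def IsBihomogeneous {M : ℕ} {ι : Type} [Fintype ι] (k μ : ℕ)
    (P : MvPolynomial (Fin M ⊕ ι) ℤ) : Prop :=
  ∀ m ∈ P.support, ∑ i, m (Sum.inl i) = k ∧ ∑ J, m (Sum.inr J) = μ

/-- The canonical class `K` of the smooth variety `X` of dimension `N` is big: for some `μ` the class
`μ K - H`, `H` the hyperplane class, has a section that vanishes at most on a proper closed subset
`Θ = 0` of `X`. The Gauss map `γ` sends a point to its embedded tangent space, whose Plücker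
coordinates `p` are the maximal minors of a tangent basis `T`, and `γ^* O(1) = K + (N + 1) H`; so a
section of `μ K - H` is given on the affine open subset `x y ≠ 0` of `X` by a quotient
`P y / x y ^ (k + μ (N + 1) + 1)`, where `P y` is a polynomial in `x` and `p`, homogeneous of degree
`k` in `x` and `μ` in `p`. -/
def BigCanonical {M g : ℕ} (N : ℕ) (G : Fin g → MvPolynomial (Fin M) ℤ) : Prop :=
  ∃ (μ k c : ℕ) (P : Fin M → MvPolynomial (Fin M ⊕ (Fin (N + 1) → Fin M)) ℤ)
    (Θ : MvPolynomial (Fin M) ℚ), (∀ y, IsBihomogeneous k μ (P y)) ∧ Θ.IsHomogeneous c ∧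
    (∃ z : Fin M → ℂ, OnX G z ∧ aeval z Θ ≠ 0) ∧
    ∀ (z : Fin M → ℂ) (T : Matrix (Fin M) (Fin (N + 1)) ℂ), z ≠ 0 → OnX G z →
      IsTangentBasis G z T →
      (∀ y y', value (P y) z T * z y' ^ (k + μ * (N + 1) + 1) =
        value (P y') z T * z y ^ (k + μ * (N + 1) + 1)) ∧
      (aeval z Θ ≠ 0 → ∃ y, value (P y) z T ≠ 0)

/-! ### Number fields -/

section nf
variable {K : Type} [Field K] [NumberField K]

/-- the absolute logarithmic height of the point with the homogeneous coordinates `x` -/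
noncomputable def height {M : ℕ} (x : Fin M → K) : ℝ :=
  Height.logHeight x / Module.finrank ℚ K

variable (K) in
/-- the logarithmic discriminant `d(K)` -/
noncomputable def logDisc : ℝ :=
  Real.log |((NumberField.discr K : ℤ) : ℝ)| / Module.finrank ℚ K

/-- The logarithmic discriminant of the basis `ω`, without the primes in `S`: `1 / [K : ℚ]` times the
logarithm of the part prime to `S` of the discriminant of `ω` (`log |disc|` minus the contributions
`- log |disc|_p` of the primes `p ∈ S`). -/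
noncomputable def logDiscBasis {n : ℕ} (S : Finset ℕ) (ω : Module.Basis (Fin n) ℚ K) : ℝ :=
  (Real.log |((Algebra.discr ℚ ω : ℚ) : ℝ)| +
    ∑ p ∈ S, Real.log ((padicNorm p (Algebra.discr ℚ ω) : ℚ) : ℝ)) / Module.finrank ℚ K

/-- The parameters of the vector `x` over the number field with the basis `ω`: the structure
constants of `ω` (the coordinates of the products `ω i * ω j`) and the coordinates of the `x y` in the
basis. -/
noncomputable def params {n M : ℕ} (ω : Module.Basis (Fin n) ℚ K) (x : Fin M → K) :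
    (Fin n × Fin n × Fin n) ⊕ (Fin M × Fin n) → ℚ :=
  Sum.elim (fun t => ω.repr (ω t.1 * ω t.2.1) t.2.2) (fun t => ω.repr (x t.1) t.2)

/-- All algebraic integers of `K` are combinations of the `ω i` with `S`-integral coefficients. If
the structure constants of `ω` are `S`-integral as well, then `ω` is a basis over `ℤ_S` of the ring
of `S`-integers of `K`. -/
def SpansIntegers {n : ℕ} (S : Finset ℕ) (ω : Module.Basis (Fin n) ℚ K) : Prop :=
  ∀ (y : 𝓞 K) (i : Fin n) (p : ℕ), p.Prime → p ∣ (ω.repr (y : K) i).den → p ∈ S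

end nf

/-! ### Short sums of `S`-units -/

/-- `u` is an `S`-unit: plus or minus a product of powers (with integer exponents) of the primes in
`S` -/
def IsSUnit (S : Finset ℕ) (u : ℚ) : Prop :=
  ∃ (σ : ℤ) (e : ℕ → ℤ), (σ = 1 ∨ σ = -1) ∧ u = σ * ∏ p ∈ S, (p : ℚ) ^ e p

/-- the maximum of the absolute values of the numerators and denominators of the `z i` -/
def size {ι : Type} [Fintype ι] (z : ι → ℚ) : ℕ :=
  Finset.univ.sup (fun i => max (z i).num.natAbs (z i).den)

/-- The rational vector `z` is a sum of `l` integer vectors with entries of absolute value at most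
`B * H ^ δ`, `H` the size of `z`, multiplied by `S`-units. -/
def IsShortSum {ι : Type} [Fintype ι] (S : Finset ℕ) (l : ℕ) (B δ : ℝ) (z : ι → ℚ) : Prop :=
  ∃ (u : Fin l → ℚ) (m : Fin l → ι → ℤ), (∀ j, IsSUnit S (u j)) ∧
    (∀ j i, |(m j i : ℝ)| ≤ B * (size z : ℝ) ^ δ) ∧ ∀ i, z i = ∑ j, u j * m j i

/-- The sparse points: `x` is a point of `X` over `K` such that the structure constants of the basis
`ω` and the coordinates of `x` with respect to `ω` together form a sum of `l` integer vectors with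
entries of absolute value at most `B H ^ δ` multiplied by `S`-units, `H` their size, and
`log H ≤ A (h(x) + 1)`. -/
def IsSparsePoint {K : Type} [Field K] [NumberField K] {M g n : ℕ}
    (G : Fin g → MvPolynomial (Fin M) ℤ) (S : Finset ℕ) (l : ℕ) (A B δ : ℝ)
    (ω : Module.Basis (Fin n) ℚ K) (x : Fin M → K) : Prop :=
  OnX G x ∧ IsShortSum S l B δ (params ω x) ∧
    Real.log (size (params ω x)) ≤ A * (height x + 1)

/-! ### Subvarieties of general type -/

/-- `z` is a point of the cone over the subvariety of the projective space with the ideal `I` -/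
def OnV {M : ℕ} (I : Ideal (MvPolynomial (Fin M) ℚ)) (z : Fin M → ℂ) : Prop :=
  ∀ f ∈ I, aeval z f = 0

/-- the ideal `I` is homogeneous: it is generated by forms -/
def IsHomogeneousIdeal {M : ℕ} (I : Ideal (MvPolynomial (Fin M) ℚ)) : Prop :=
  ∃ T : Set (MvPolynomial (Fin M) ℚ), (∀ f ∈ T, ∃ k, f.IsHomogeneous k) ∧ I = Ideal.span T

/-- The irreducible variety `Y` with the prime ideal `I` is birational over `ℚ` to the irreducible
variety `W` with the equations `G k = 0`: there are rational maps `f : Y ⇢ W` and `f' : W ⇢ Y`, given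
by forms of positive degree with integral coefficients, which are inverse to each other. -/
def IsBirational {M M' g : ℕ} (I : Ideal (MvPolynomial (Fin M) ℚ))
    (G : Fin g → MvPolynomial (Fin M') ℤ) : Prop :=
  ∃ (a b : ℕ) (f : Fin M' → MvPolynomial (Fin M) ℤ) (f' : Fin M → MvPolynomial (Fin M') ℤ),
    (∀ j, (f j).IsHomogeneous (a + 1)) ∧ (∀ i, (f' i).IsHomogeneous (b + 1)) ∧
    (∀ z : Fin M → ℂ, OnV I z → OnX G (fun j => aeval z (f j)) ∧
      ∀ i i', aeval (fun j => aeval z (f j)) (f' i) * z i' =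
        aeval (fun j => aeval z (f j)) (f' i') * z i) ∧
    (∀ w : Fin M' → ℂ, OnX G w → OnV I (fun i => aeval w (f' i)) ∧
      ∀ j j', aeval (fun i => aeval w (f' i)) (f j) * w j' =
        aeval (fun i => aeval w (f' i)) (f j') * w j) ∧
    (∃ z : Fin M → ℂ, OnV I z ∧ ∃ i, aeval (fun j => aeval z (f j)) (f' i) ≠ 0) ∧
    ∃ w : Fin M' → ℂ, OnX G w ∧ ∃ j, aeval (fun i => aeval w (f' i)) (f j) ≠ 0

/-- The irreducible variety with the prime ideal `I` is of general type: it is birational to a smooth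
irreducible projective variety over `ℚ` (of some dimension `N`, in some `ℙ^(N + s)`) whose canonical
class is big. -/
def IsGeneralType {M : ℕ} (I : Ideal (MvPolynomial (Fin M) ℚ)) : Prop :=
  ∃ (N s g : ℕ) (G : Fin g → MvPolynomial (Fin (N + s + 1)) ℤ) (e : Fin g → ℕ),
    (∀ k, (G k).IsHomogeneous (e k)) ∧ DimGE N G ∧ IsSmooth s G ∧ IsIrreducible G ∧
      BigCanonical N G ∧ IsBirational I G

/-- The prime ideal `I` defines a closed subvariety of `X`, irreducible over `ℚ`, of positive dimension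
(with infinitely many complex points), which is NOT of general type. -/
def IsSpecial {M g : ℕ} (G : Fin g → MvPolynomial (Fin M) ℤ)
    (I : Ideal (MvPolynomial (Fin M) ℚ)) : Prop :=
  I.IsPrime ∧ IsHomogeneousIdeal I ∧ (∀ k, map (Int.castRingHom ℚ) (G k) ∈ I) ∧
    {P : Projectivization ℂ (Fin M → ℂ) | ∃ (z : Fin M → ℂ) (hz : z ≠ 0),
      P = Projectivization.mk ℂ z hz ∧ OnV I z}.Infinite ∧ ¬ IsGeneralType I

section proofs

/-- complex points of the cone from points over a number field -/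
lemma onV_emb {M : ℕ} {I : Ideal (MvPolynomial (Fin M) ℚ)} {K : Type} [Field K] [NumberField K]
    (φ : K →+* ℂ) (x : Fin M → K) (hx : ∀ f ∈ I, aeval x f = 0) : OnV I (fun j => φ (x j)) := by
  intro f hf
  have h1 : aeval (fun j => φ (x j)) f = φ (aeval x f) :=
    (comp_aeval_apply x φ.toRatAlgHom f).symm
  rw [h1, hx f hf, map_zero]

lemma aeval_emb {σ : Type} {K : Type} [Field K] (φ : K →+* ℂ) (x : σ → K)
    (f : MvPolynomial σ ℤ) : aeval (fun j => φ (x j)) f = φ (aeval x f) :=
  (comp_aeval_apply x φ.toIntAlgHom f).symm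

/-- integral polynomials as rational polynomials -/
lemma aeval_mapQ {σ L : Type} [Field L] [Algebra ℚ L] (x : σ → L) (f : MvPolynomial σ ℤ) :
    aeval x (map (Int.castRingHom ℚ) f) = aeval x f := by
  rw [← algebraMap_int_eq, aeval_map_algebraMap]

/-- heights of the points of a finite set of points -/
lemma finite_proj {M : ℕ} (V : (Fin M → ℂ) → Prop)
    (hfin : {P : Projectivization ℂ (Fin M → ℂ) | ∃ (z : Fin M → ℂ) (hz : z ≠ 0),
      P = Projectivization.mk ℂ z hz ∧ V z}.Finite) :
    ∃ C : ℝ, 0 ≤ C ∧ ∀ (K : Type) [Field K] [NumberField K] (φ : K →+* ℂ) (x : Fin M → K), x ≠ 0 →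
      V (fun j => φ (x j)) → Height.logHeight x ≤ C * Module.finrank ℚ K := by
  classical
  set A : Set ℂ := ⋃ P ∈ hfin.toFinset, ⋃ (i : Fin M), ⋃ (j : Fin M), {P.rep i / P.rep j} with hA
  have hAf : A.Finite := by
    refine Set.Finite.biUnion (Finset.finite_toSet _) fun P _ => ?_
    exact Set.finite_iUnion fun i => Set.finite_iUnion fun j => Set.finite_singleton _
  obtain ⟨C, hC0, hC⟩ := Pool.Agent.Y724.T4.finite_height A hAf
  refine ⟨M * C, by positivity, ?_⟩
  intro K _ _ φ x hx hV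
  obtain ⟨j0, hj0⟩ := Function.ne_iff.1 hx
  have hz : (fun j => φ (x j)) ≠ 0 := by
    intro h
    apply hj0
    exact (map_eq_zero φ).1 (congrFun h j0)
  set P : Projectivization ℂ (Fin M → ℂ) := Projectivization.mk ℂ _ hz with hP
  have hmem : P ∈ hfin.toFinset := by
    rw [Set.Finite.mem_toFinset]
    exact ⟨_, hz, hP, hV⟩
  obtain ⟨c, hc⟩ := (Projectivization.mk_eq_mk_iff' ℂ _ _ P.rep_nonzero hz).1 (by
    rw [Projectivization.mk_rep])
  have hc0 : c ≠ 0 := by
    intro h
    rw [h, zero_smul] at hc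
    exact P.rep_nonzero hc.symm
  have hφj : φ (x j0) ≠ 0 := fun h => hj0 ((map_eq_zero φ).1 h)
  refine (Pool.Agent.Y724.T4.height_le_ratios x j0 hj0).trans ?_
  have h1 : ∀ i, Height.logHeight₁ (x i / x j0) ≤ C * Module.finrank ℚ K := by
    intro i
    refine hC K φ _ ?_
    rw [hA, Set.mem_iUnion₂]
    refine ⟨P, hmem, ?_⟩
    rw [Set.mem_iUnion]
    refine ⟨i, ?_⟩
    rw [Set.mem_iUnion]
    refine ⟨j0, ?_⟩
    rw [Set.mem_singleton_iff, map_div₀, ← hc, Pi.smul_apply, Pi.smul_apply, smul_eq_mul,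
      smul_eq_mul, mul_div_mul_left _ _ hc0]
  refine (Finset.sum_le_sum fun i _ => h1 i).trans (le_of_eq ?_)
  rw [Finset.sum_const, Finset.card_univ, Fintype.card_fin, nsmul_eq_mul]
  ring

/-- the smallest of finitely many positive numbers -/
lemma exists_min (r : ℕ) (f : ℕ → ℝ) (hf : ∀ n, 0 < f n) : ∃ δ : ℝ, 0 < δ ∧ ∀ n ≤ r, δ ≤ f n := by
  induction r with
  | zero => exact ⟨f 0, hf 0, fun n hn => by rw [Nat.le_zero.1 hn]⟩
  | succ r ih =>
    obtain ⟨δ, hδ, h⟩ := ih
    refine ⟨min δ (f (r + 1)), lt_min hδ (hf _), fun n hn => ?_⟩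
    rcases Nat.lt_or_ge r n with h1 | h1
    · have h2 : n = r + 1 := by omega
      rw [h2]
      exact min_le_right _ _
    · exact (min_le_left _ _).trans (h n h1)

/-- the largest of finitely many numbers -/
lemma exists_max (r : ℕ) (f : ℕ → ℝ) : ∃ C : ℝ, 0 ≤ C ∧ ∀ n ≤ r, f n ≤ C := by
  induction r with
  | zero => exact ⟨|f 0|, abs_nonneg _, fun n hn => by rw [Nat.le_zero.1 hn]; exact le_abs_self _⟩
  | succ r ih =>
    obtain ⟨C, hC, h⟩ := ih
    refine ⟨max C (f (r + 1)), hC.trans (le_max_left _ _), fun n hn => ?_⟩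
    rcases Nat.lt_or_ge r n with h1 | h1
    · have h2 : n = r + 1 := by omega
      rw [h2]
      exact le_max_right _ _
    · exact (h n h1).trans (le_max_left _ _)

lemma exists_maxN (r : ℕ) (f : ℕ → ℕ) : ∃ C : ℕ, ∀ n ≤ r, f n ≤ C := by
  refine ⟨∑ n ∈ Finset.range (r + 1), f n, fun n hn => ?_⟩
  exact Finset.single_le_sum (f := f) (fun _ _ => Nat.zero_le _)
    (Finset.mem_range.2 (by omega))

/-- sparse points of a subvariety of general type outside a proper closed subset -/
lemma gt_step {M : ℕ} (I : Ideal (MvPolynomial (Fin M) ℚ)) (hI : I.IsPrime)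
    (hgt : IsGeneralType I) (S : Finset ℕ) (hS : ∀ p ∈ S, p.Prime) (r l : ℕ) (A B : ℝ) :
    ∃ (δ κ C : ℝ) (Φ : MvPolynomial (Fin M) ℚ) (k : ℕ), 0 < δ ∧ 0 ≤ κ ∧ 0 ≤ C ∧
      Φ.IsHomogeneous k ∧ Φ ∉ I ∧ ∀ (n : ℕ), n ≤ r → ∀ (K : Type) [Field K] [NumberField K]
        (ω : Module.Basis (Fin n) ℚ K) (x : Fin M → K), x ≠ 0 → (∀ f ∈ I, aeval x f = 0) →
        aeval x Φ ≠ 0 → IsShortSum S l B δ (params ω x) →
        Real.log (size (params ω x)) ≤ A * (height x + 1) →
        height x ≤ κ * logDiscBasis S ω + C ∧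
        (SpansIntegers S ω → height x ≤ κ * logDisc K + C) := by
  classical
  obtain ⟨N, s, g, G, e, hG, hdim, hsm, hirr, hbig, a, b, f, f', hf, hf', hYW, hWY,
    ⟨z0, hz0, i0, hi0⟩, ⟨w0, hw0, j0, hj0⟩⟩ := hgt
  obtain ⟨κ0, h9⟩ := Pool.Agent.Y724.T4.R9.main9 N s g G e hG hdim hsm hirr hbig
  -- constants
  choose P hP using fun n : ℕ => Pool.Agent.Y724.T4.uni_params (n := n) f a hf
  obtain ⟨cf, hcf0, hcf⟩ := Pool.Agent.Y724.T4.height_forms f' (b + 1) hf'
  choose Ch hCh0 hCh using fun n : ℕ => Pool.Agent.Y724.T4.height_le_size n (N + s + 1)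
  choose Ds Cs hCs0 hCs using fun n : ℕ => Pool.Agent.Y724.T4.size_poly (P n)
  set c1 : ℕ → ℝ := fun n => |A| * ((b + 1) * Ch n) with hc1
  set c2 : ℕ → ℝ := fun n => |A| * ((b + 1) * Ch n + cf + 1) with hc2
  have hc1n : ∀ n, 0 ≤ c1 n := fun n => by
    have := hCh0 n
    positivity
  have hc2n : ∀ n, 0 ≤ c2 n := fun n => by
    have := hCh0 n
    positivity
  choose l' B' hB'0 hshort using fun n : ℕ =>
    Pool.Agent.Y724.T4.short_poly (P n) l B (c1 n) (c2 n) (hc1n n) (hc2n n)
  obtain ⟨L, hL⟩ := exists_maxN r l'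
  obtain ⟨BB, hBB0, hBB⟩ := exists_max r B'
  obtain ⟨DD, hDD⟩ := exists_maxN r Ds
  obtain ⟨CC, hCC0, hCC⟩ := exists_max r Cs
  set A' : ℝ := DD * (|A| * (b + 1 + cf + 1)) + CC with hA'
  obtain ⟨δ', Φ', k', C', hδ', hΦ'h, ⟨w1, hw1, hΦ'w1⟩, hmain, -⟩ := h9 S hS r L A' BB
  choose δ0 hδ00 hδ0 using fun n : ℕ => hshort n δ' hδ'
  obtain ⟨δ, hδ, hδle⟩ := exists_min r δ0 hδ00
  -- the exceptional form
  set fQ : Fin (N + s + 1) → MvPolynomial (Fin M) ℚ := fun j => map (Int.castRingHom ℚ) (f j)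
    with hfQ
  have hfQh : ∀ j, (fQ j).IsHomogeneous (a + 1) := fun j => (hf j).map _
  have hev1 : ∀ {L : Type} [Field L] [Algebra ℚ L] (z : Fin M → L)
      (Q : MvPolynomial (Fin (N + s + 1)) ℚ),
      aeval z (aeval fQ Q) = aeval (fun j => aeval z (f j)) Q := by
    intro L _ _ z Q
    rw [comp_aeval_apply fQ (aeval z) Q]
    congr 2
    funext j
    exact aeval_mapQ z (f j)
  set Φ : MvPolynomial (Fin M) ℚ := aeval fQ Φ' * aeval fQ (map (Int.castRingHom ℚ) (f' i0))
    with hΦ
  have hdom : aeval fQ Φ' ∉ I := by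
    -- a point of `W` off `Φ'` in the domain of the inverse map
    obtain ⟨w, hwG, hw⟩ : ∃ w : Fin (N + s + 1) → ℂ, OnX G w ∧
        aeval w (Φ' * (aeval (fun i => map (Int.castRingHom ℚ) (f' i))
          (map (Int.castRingHom ℚ) (f j0)) : MvPolynomial (Fin (N + s + 1)) ℚ)) ≠ 0 := by
      by_contra hcon
      push Not at hcon
      rcases hirr _ _ hcon with h | h
      · exact hΦ'w1 (h w1 hw1)
      · apply hj0
        have h1 := h w0 hw0
        rw [comp_aeval_apply (fun i => map (Int.castRingHom ℚ) (f' i)) (aeval w0)] at h1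
        rw [aeval_mapQ] at h1
        rw [← h1]
        congr 2
        funext i
        exact (aeval_mapQ w0 (f' i)).symm
    rw [map_mul] at hw
    have hw2 : aeval w Φ' ≠ 0 := left_ne_zero_of_mul hw
    have hw3 : aeval (fun i => aeval w (f' i)) (f j0) ≠ 0 := by
      have h1 := right_ne_zero_of_mul hw
      rw [comp_aeval_apply (fun i => map (Int.castRingHom ℚ) (f' i)) (aeval w)] at h1
      rw [aeval_mapQ] at h1
      intro h2
      apply h1
      rw [← h2]
      congr 2
      funext i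
      exact aeval_mapQ w (f' i)
    obtain ⟨hz1, hz2⟩ := hWY w hwG
    intro hmem
    have h3 := hz1 _ hmem
    rw [hev1] at h3
    -- `w` is not zero
    have hw0' : w ≠ 0 := by
      rintro rfl
      apply hw3
      have h4 : (fun i => aeval (0 : Fin (N + s + 1) → ℂ) (f' i)) = fun i => (0 : ℂ) * (0 : ℂ) := by
        funext i
        have h5 := Pool.Agent.Y724.T4.aeval_scale (hf' i) (0 : ℂ) (0 : Fin (N + s + 1) → ℂ)
        rw [pow_succ, mul_zero, zero_mul] at h5
        rw [mul_zero, ← h5]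
        congr 2
        funext j
        simp
      rw [h4, Pool.Agent.Y724.T4.aeval_scale (hf j0) (0 : ℂ) (fun _ => (0 : ℂ)), pow_succ,
        mul_zero, zero_mul]
    obtain ⟨j1, hj1⟩ := Function.ne_iff.1 hw0'
    have hj1' : w j1 ≠ 0 := hj1
    set lam : ℂ := aeval (fun i => aeval w (f' i)) (f j1) / w j1 with hlam
    have h4 : (fun j => aeval (fun i => aeval w (f' i)) (f j)) = fun j => lam * w j := by
      funext j
      have h5 := hz2 j j1
      rw [hlam, div_mul_eq_mul_div, eq_div_iff hj1', h5]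
    rw [h4, Pool.Agent.Y724.T4.aeval_scaleQ hΦ'h] at h3
    have h5 : lam ≠ 0 := by
      intro h6
      apply hw3
      have h7 := congrFun h4 j0
      rw [h7, h6, zero_mul]
    exact hw2 ((mul_eq_zero.1 h3).resolve_left (pow_ne_zero _ h5))
  have hdom2 : aeval fQ (map (Int.castRingHom ℚ) (f' i0)) ∉ I := by
    intro hmem
    have h3 := hz0 _ hmem
    rw [hev1, aeval_mapQ] at h3
    exact hi0 h3
  set κ : ℝ := (b + 1) * |κ0| with hκ
  set C : ℝ := (b + 1) * |C'| + cf with hC
  refine ⟨δ, κ, C, Φ, (a + 1) * k' + (a + 1) * (b + 1), hδ, by positivity, by positivity, ?_, ?_, ?_⟩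
  · exact (hΦ'h.aeval fQ hfQh).mul (((hf' i0).map _).aeval fQ hfQh)
  · intro hmem
    rcases hI.mem_or_mem hmem with h | h
    · exact hdom h
    · exact hdom2 h
  intro n hn K _ _ ω x hx hxI hΦx hsp hlog
  have hnK : Module.finrank ℚ K = n := by
    rw [Module.finrank_eq_card_basis ω, Fintype.card_fin]
  have hn0 : 0 < n := by
    rw [← hnK]
    exact Module.finrank_pos
  have hnR : (1 : ℝ) ≤ n := by exact_mod_cast hn0
  obtain ⟨φ⟩ := (inferInstance : Nonempty (K →+* ℂ))
  have hzV := onV_emb φ x hxI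
  obtain ⟨hWx, hrel⟩ := hYW _ hzV
  set w : Fin (N + s + 1) → K := fun j => aeval x (f j) with hw
  have hφw : (fun j => aeval (fun j => φ (x j)) (f j)) = fun j => φ (w j) := by
    funext j
    exact aeval_emb φ x (f j)
  rw [hφw] at hWx hrel
  have hwX : ∀ k, aeval w (G k) = 0 := by
    intro k
    have h1 := hWx k
    rw [aeval_emb] at h1
    exact (map_eq_zero φ).1 h1
  have hrel' : ∀ i i', aeval w (f' i) * x i' = aeval w (f' i') * x i := by
    intro i i'
    have h1 := hrel i i'
    rw [aeval_emb, aeval_emb, ← map_mul, ← map_mul] at h1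
    exact φ.injective h1
  rw [hΦ, map_mul, hev1, hev1, aeval_mapQ] at hΦx
  have hΦw : aeval w Φ' ≠ 0 := left_ne_zero_of_mul hΦx
  have hf'w : aeval w (f' i0) ≠ 0 := right_ne_zero_of_mul hΦx
  -- `x` is proportional to `f' w`
  obtain ⟨i1, hi1⟩ := Function.ne_iff.1 hx
  have hi1' : x i1 ≠ 0 := hi1
  have hxi0 : x i0 ≠ 0 := by
    intro h0
    have h1 := hrel' i0 i1
    rw [h0, mul_zero] at h1
    exact (mul_ne_zero hf'w hi1') h1
  have hprop : x = (x i0 / aeval w (f' i0)) • (fun i => aeval w (f' i)) := by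
    funext i
    rw [Pi.smul_apply, smul_eq_mul, div_mul_eq_mul_div, eq_div_iff hf'w]
    have h1 := hrel' i0 i
    rw [mul_comm (x i), h1, mul_comm]
  have hlh : Height.logHeight x = Height.logHeight (fun i => aeval w (f' i)) := by
    conv_lhs => rw [hprop]
    exact Height.logHeight_smul_eq_logHeight _ (div_ne_zero hxi0 hf'w)
  have hw0 : w ≠ 0 := by
    intro h0
    apply hf'w
    have h5 := Pool.Agent.Y724.T4.aeval_scale (hf' i0) (0 : K) w
    rw [pow_succ, mul_zero, zero_mul] at h5
    rw [h0]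
    rw [← h5]
    congr 2
    funext j
    simp
  have hhx : height x ≤ (b + 1) * height w + cf := by
    have h1 := hcf K w hw0
    have h2 : height x = Height.logHeight x / Module.finrank ℚ K := rfl
    have h3 : height w = Height.logHeight w / Module.finrank ℚ K := rfl
    rw [h2, h3, hlh, hnK] at *
    rw [div_le_iff₀ (by linarith)]
    have h4 : ((b + 1) * (Height.logHeight w / n) + cf) * (n : ℝ) =
        (b + 1) * Height.logHeight w + cf * n := by
      field_simp
    rw [h4]
    push_cast at h1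
    exact h1
  have hhw0 : 0 ≤ height w := div_nonneg (Height.logHeight_nonneg _) (Nat.cast_nonneg _)
  have hhx0 : 0 ≤ height x := div_nonneg (Height.logHeight_nonneg _) (Nat.cast_nonneg _)
  have hpar : params ω w = fun i => aeval (params ω x) (P n i) := hP n K ω x
  -- the height of `w` and the size of its parameters
  have hhw : height w ≤ Ch n * (Real.log (size (params ω w)) + 1) := by
    have h1 := hCh n K ω w
    have h2 : height w ≤ Height.logHeight w := by
      have h3 : height w = Height.logHeight w / Module.finrank ℚ K := rfl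
      rw [h3, hnK]
      exact div_le_self (Height.logHeight_nonneg _) hnR
    exact h2.trans h1
  have hlogx : Real.log (size (params ω x)) ≤ |A| * ((b + 1) * height w + cf + 1) := by
    have h1 : A * (height x + 1) ≤ |A| * (height x + 1) :=
      mul_le_mul_of_nonneg_right (le_abs_self A) (by linarith)
    have h2 : |A| * (height x + 1) ≤ |A| * ((b + 1) * height w + cf + 1) :=
      mul_le_mul_of_nonneg_left (by linarith) (abs_nonneg A)
    linarith
  have hsize : Real.log (size (params ω x)) ≤ c1 n * Real.log (size (params ω w)) + c2 n := by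
    refine hlogx.trans ?_
    rw [hc1, hc2]
    have h1 : ((b : ℝ) + 1) * height w ≤ (b + 1) * (Ch n * (Real.log (size (params ω w)) + 1)) :=
      mul_le_mul_of_nonneg_left hhw (by positivity)
    have h2 : |A| * (((b : ℝ) + 1) * height w + cf + 1) ≤
        |A| * ((b + 1) * (Ch n * (Real.log (size (params ω w)) + 1)) + cf + 1) :=
      mul_le_mul_of_nonneg_left (by linarith) (abs_nonneg A)
    refine h2.trans (le_of_eq ?_)
    ring
  have hshw : IsShortSum S L BB δ' (params ω w) := by
    have h1 := hδ0 n δ hδ (hδle n hn) S hS (params ω x) (by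
      have h2 := hsize
      rw [hpar] at h2
      exact h2) hsp
    have h2 : Pool.Agent.Y724.T4.R6.IsShortSum S (l' n) (B' n) δ' (params ω w) := by
      rw [hpar]
      exact h1
    exact Pool.Agent.Y724.T4.short_mono h2 (hL n hn) (hBB n hn) hBB0 le_rfl
  have hlogw : Real.log (size (params ω w)) ≤ A' * (height w + 1) := by
    have h1 := hCs n (params ω x)
    have h2 : Real.log (size (params ω w)) ≤
        Ds n * Real.log (size (params ω x)) + Cs n := by
      rw [hpar]
      exact h1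
    have h3 : (0 : ℝ) ≤ |A| * ((b + 1) * height w + cf + 1) := by positivity
    have h4 : (Ds n : ℝ) * Real.log (size (params ω x)) ≤
        DD * (|A| * ((b + 1) * height w + cf + 1)) := by
      refine (mul_le_mul_of_nonneg_left hlogx (Nat.cast_nonneg _)).trans ?_
      exact mul_le_mul_of_nonneg_right (by exact_mod_cast hDD n hn) h3
    have h5 : ((b : ℝ) + 1) * height w + cf + 1 ≤ (b + 1 + cf + 1) * (height w + 1) := by
      nlinarith
    have h6 : (DD : ℝ) * (|A| * ((b + 1) * height w + cf + 1)) ≤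
        DD * (|A| * ((b + 1 + cf + 1) * (height w + 1))) := by
      refine mul_le_mul_of_nonneg_left ?_ (Nat.cast_nonneg _)
      exact mul_le_mul_of_nonneg_left h5 (abs_nonneg A)
    have h7 : CC ≤ CC * (height w + 1) := by nlinarith
    have h8 := hCC n hn
    rw [hA']
    nlinarith
  obtain ⟨m1, m2⟩ := hmain n hn K ω w ⟨hwX, hshw, hlogw⟩ hΦw
  have hfinal : ∀ D : ℝ, 0 ≤ D → height w ≤ κ0 * D + C' → height x ≤ κ * D + C := by
    intro D hD h1
    have h2 : κ0 * D ≤ |κ0| * D := mul_le_mul_of_nonneg_right (le_abs_self _) hD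
    have h3 := le_abs_self C'
    have h4 : ((b : ℝ) + 1) * height w ≤ (b + 1) * (|κ0| * D + |C'|) :=
      mul_le_mul_of_nonneg_left (by linarith) (by positivity)
    rw [hκ, hC]
    nlinarith
  refine ⟨hfinal _ ?_ m1, fun hspan => hfinal _ ?_ (m2 hspan)⟩
  · exact Pool.Agent.Y724.T4.logDiscBasis_nonneg ω x S hS l B δ hsp
  · exact Pool.Agent.Y724.T4.logDisc_nonneg K

/-- the bounds of the theorem for the sparse points in `V` -/
def GoodAt {M : ℕ} (S : Finset ℕ) (r l : ℕ) (A B : ℝ)
    (V : ∀ (K : Type) [Field K] [NumberField K], (Fin M → K) → Prop) : Prop :=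
  ∃ (δ κ C : ℝ), 0 < δ ∧ 0 ≤ κ ∧ 0 ≤ C ∧ ∀ (n : ℕ), n ≤ r → ∀ (K : Type) [Field K] [NumberField K]
    (ω : Module.Basis (Fin n) ℚ K) (x : Fin M → K), x ≠ 0 → V K x →
    IsShortSum S l B δ (params ω x) → Real.log (size (params ω x)) ≤ A * (height x + 1) →
      height x ≤ κ * logDiscBasis S ω + C ∧ (SpansIntegers S ω → height x ≤ κ * logDisc K + C)

lemma goodAt_or {M : ℕ} {S : Finset ℕ} (hS : ∀ p ∈ S, p.Prime) {r l : ℕ} {A B : ℝ} (hB : 0 ≤ B)
    {V V1 V2 : ∀ (K : Type) [Field K] [NumberField K], (Fin M → K) → Prop}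
    (h1 : GoodAt S r l A B V1) (h2 : GoodAt S r l A B V2)
    (h : ∀ (K : Type) [Field K] [NumberField K] (x : Fin M → K), x ≠ 0 → V K x →
      V1 K x ∨ V2 K x) : GoodAt S r l A B V := by
  obtain ⟨δ1, κ1, C1, hδ1, hκ1, hC1, h1⟩ := h1
  obtain ⟨δ2, κ2, C2, hδ2, hκ2, hC2, h2⟩ := h2
  refine ⟨min δ1 δ2, max κ1 κ2, max C1 C2, lt_min hδ1 hδ2, hκ1.trans (le_max_left _ _),
    hC1.trans (le_max_left _ _), ?_⟩
  intro n hn K _ _ ω x hx hV hsp hlog
  have hd1 : 0 ≤ logDiscBasis S ω :=
    Pool.Agent.Y724.T4.logDiscBasis_nonneg ω x S hS l B _ hsp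
  have hd2 : 0 ≤ logDisc K := Pool.Agent.Y724.T4.logDisc_nonneg K
  rcases h K x hx hV with h3 | h3
  · have h4 : IsShortSum S l B δ1 (params ω x) :=
      Pool.Agent.Y724.T4.short_mono (z := params ω x) hsp le_rfl le_rfl hB (min_le_left _ _)
    obtain ⟨h5, h6⟩ := h1 n hn K ω x hx h3 h4 hlog
    refine ⟨h5.trans (add_le_add (mul_le_mul_of_nonneg_right (le_max_left _ _) hd1)
      (le_max_left _ _)), fun hs => (h6 hs).trans (add_le_add
        (mul_le_mul_of_nonneg_right (le_max_left _ _) hd2) (le_max_left _ _))⟩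
  · have h4 : IsShortSum S l B δ2 (params ω x) :=
      Pool.Agent.Y724.T4.short_mono (z := params ω x) hsp le_rfl le_rfl hB (min_le_right _ _)
    obtain ⟨h5, h6⟩ := h2 n hn K ω x hx h3 h4 hlog
    refine ⟨h5.trans (add_le_add (mul_le_mul_of_nonneg_right (le_max_right _ _) hd1)
      (le_max_right _ _)), fun hs => (h6 hs).trans (add_le_add
        (mul_le_mul_of_nonneg_right (le_max_right _ _) hd2) (le_max_right _ _))⟩

lemma goodAt_bdd {M : ℕ} {S : Finset ℕ} {r l : ℕ} {A B : ℝ}
    {V : ∀ (K : Type) [Field K] [NumberField K], (Fin M → K) → Prop} (C : ℝ) (hC : 0 ≤ C)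
    (h : ∀ (K : Type) [Field K] [NumberField K] (x : Fin M → K), x ≠ 0 → V K x →
      Height.logHeight x ≤ C * Module.finrank ℚ K) : GoodAt S r l A B V := by
  refine ⟨1, 0, C, one_pos, le_rfl, hC, ?_⟩
  intro n hn K _ _ ω x hx hV hsp hlog
  have h0 : (0 : ℝ) < Module.finrank ℚ K := by exact_mod_cast Module.finrank_pos
  have h1 : height x ≤ C := by
    have h2 : height x = Height.logHeight x / Module.finrank ℚ K := rfl
    rw [h2, div_le_iff₀ h0]
    exact h K x hx hV
  rw [zero_mul, zero_mul, zero_add]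
  exact ⟨h1, fun _ => h1⟩

/-- a homogeneous ideal that is not prime -/
lemma not_prime_split {M : ℕ} (I : Ideal (MvPolynomial (Fin M) ℚ)) (hI : IsHomogeneousIdeal I)
    (htop : I ≠ ⊤) (hp : ¬ I.IsPrime) : ∃ (a b : MvPolynomial (Fin M) ℚ) (i j : ℕ),
      a.IsHomogeneous i ∧ b.IsHomogeneous j ∧ a * b ∈ I ∧ a ∉ I ∧ b ∉ I := by
  let _ : GradedAlgebra (homogeneousSubmodule (Fin M) ℚ) := MvPolynomial.gradedAlgebra
  obtain ⟨T, hT, rfl⟩ := hI
  have hh : (Ideal.span T).IsHomogeneous (homogeneousSubmodule (Fin M) ℚ) := by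
    refine Ideal.homogeneous_span _ _ fun f hf => ?_
    obtain ⟨k, hk⟩ := hT f hf
    exact ⟨k, hk⟩
  by_contra hcon
  push Not at hcon
  apply hp
  refine hh.isPrime_of_homogeneous_mem_or_mem htop ?_
  rintro x y ⟨i, hx⟩ ⟨j, hy⟩ hxy
  by_contra h
  rw [not_or] at h
  exact h.2 (hcon x y i j hx hy hxy h.1)

/-- Noetherian induction -/
lemma all_good {M g : ℕ} (G : Fin g → MvPolynomial (Fin M) ℤ)
    (S : Finset ℕ) (hS : ∀ p ∈ S, p.Prime) (r : ℕ) :
    ∀ I : Ideal (MvPolynomial (Fin M) ℚ), IsHomogeneousIdeal I →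
      (∀ k, map (Int.castRingHom ℚ) (G k) ∈ I) → ∀ (l : ℕ) (A B : ℝ), 0 ≤ B →
      ∃ Y : Set (Ideal (MvPolynomial (Fin M) ℚ)), Y.Finite ∧ (∀ J ∈ Y, IsSpecial G J) ∧
      GoodAt S r l A B (fun K _ _ x => (∀ f ∈ I, aeval x f = 0) ∧
        ∀ J ∈ Y, ∃ f ∈ J, aeval x f ≠ 0) := by
  classical
  intro I
  induction I using WellFoundedGT.induction with
  | ind I ih =>
  intro hI hG l A B hB
  by_cases htop : I = ⊤
  · refine ⟨∅, Set.finite_empty, fun J hJ => absurd hJ (Set.notMem_empty J),
      goodAt_bdd 0 le_rfl fun K _ _ x _ hV => ?_⟩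
    exfalso
    have h1 := hV.1 1 (by rw [htop]; trivial)
    rw [map_one] at h1
    exact one_ne_zero h1
  have hmono : ∀ (a : MvPolynomial (Fin M) ℚ), a ∉ I → I < I ⊔ Ideal.span {a} := by
    intro a ha
    refine lt_of_le_of_ne le_sup_left fun h => ha ?_
    rw [h]
    exact (le_sup_right : Ideal.span {a} ≤ I ⊔ Ideal.span {a}) (Ideal.mem_span_singleton_self a)
  have hhom : ∀ (a : MvPolynomial (Fin M) ℚ) (i : ℕ), a.IsHomogeneous i →
      IsHomogeneousIdeal (I ⊔ Ideal.span {a}) := by
    intro a i ha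
    obtain ⟨T, hT, hIT⟩ := hI
    refine ⟨T ∪ {a}, ?_, by rw [Ideal.span_union, ← hIT]⟩
    rintro y (hy | hy)
    · exact hT y hy
    · rw [Set.mem_singleton_iff] at hy
      rw [hy]
      exact ⟨i, ha⟩
  have hzero : ∀ (a : MvPolynomial (Fin M) ℚ) (K : Type) [Field K] [NumberField K]
      (x : Fin M → K), (∀ f ∈ I, aeval x f = 0) → aeval x a = 0 →
      ∀ f ∈ I ⊔ Ideal.span {a}, aeval x f = 0 := by
    intro a K _ _ x h1 h2
    have h3 : I ⊔ Ideal.span {a} ≤ RingHom.ker (aeval x : MvPolynomial (Fin M) ℚ →ₐ[ℚ] K) := by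
      refine sup_le (fun f hf => h1 f hf) ?_
      rw [Ideal.span_le, Set.singleton_subset_iff]
      exact h2
    intro f hf
    exact h3 hf
  by_cases hp : I.IsPrime
  · by_cases hinf : {P : Projectivization ℂ (Fin M → ℂ) | ∃ (z : Fin M → ℂ) (hz : z ≠ 0),
        P = Projectivization.mk ℂ z hz ∧ OnV I z}.Infinite
    · by_cases hgt : IsGeneralType I
      · obtain ⟨δ, κ, C, Φ, k, hδ, hκ, hC, hΦh, hΦ, hmain⟩ := gt_step I hp hgt S hS r l A B
        obtain ⟨Y, hY, hYs, hgood⟩ := ih _ (hmono Φ hΦ) (hhom Φ k hΦh)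
          (fun k => (le_sup_left : I ≤ _) (hG k)) l A B hB
        refine ⟨Y, hY, hYs, goodAt_or hS hB
          (V1 := fun K _ _ x => (∀ f ∈ I, aeval x f = 0) ∧ aeval x Φ ≠ 0)
          ⟨δ, κ, C, hδ, hκ, hC, fun n hn K _ _ ω x hx hV hsp hlog =>
            hmain n hn K ω x hx hV.1 hV.2 hsp hlog⟩ hgood ?_⟩
        intro K _ _ x hx hV
        by_cases hx0 : aeval x Φ = 0
        · exact Or.inr ⟨hzero Φ K x hV.1 hx0, hV.2⟩
        · exact Or.inl ⟨hV.1, hx0⟩
      · refine ⟨{I}, Set.finite_singleton I, ?_, goodAt_bdd 0 le_rfl fun K _ _ x _ hV => ?_⟩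
        · intro J hJ
          rw [Set.mem_singleton_iff] at hJ
          rw [hJ]
          exact ⟨hp, hI, hG, hinf, hgt⟩
        · exfalso
          obtain ⟨f, hf, hf0⟩ := hV.2 I (Set.mem_singleton I)
          exact hf0 (hV.1 f hf)
    · rw [Set.not_infinite] at hinf
      obtain ⟨C, hC0, hC⟩ := finite_proj (OnV I) hinf
      refine ⟨∅, Set.finite_empty, fun J hJ => absurd hJ (Set.notMem_empty J),
        goodAt_bdd C hC0 fun K _ _ x hx hV => ?_⟩
      obtain ⟨φ⟩ := (inferInstance : Nonempty (K →+* ℂ))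
      exact hC K φ x hx (onV_emb φ x hV.1)
  · -- not prime
    obtain ⟨a, b, i, j, ha, hb, hab, haI, hbI⟩ := not_prime_split I hI htop hp
    obtain ⟨Y1, hY1, hYs1, h1⟩ :=
      ih _ (hmono a haI) (hhom a i ha) (fun k => (le_sup_left : I ≤ _) (hG k)) l A B hB
    obtain ⟨Y2, hY2, hYs2, h2⟩ :=
      ih _ (hmono b hbI) (hhom b j hb) (fun k => (le_sup_left : I ≤ _) (hG k)) l A B hB
    refine ⟨Y1 ∪ Y2, hY1.union hY2, ?_, goodAt_or hS hB h1 h2 ?_⟩
    · rintro J (hJ | hJ)
      · exact hYs1 J hJ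
      · exact hYs2 J hJ
    intro K _ _ x hx hV
    have h3 := hV.1 _ hab
    rw [map_mul] at h3
    rcases mul_eq_zero.1 h3 with h4 | h4
    · exact Or.inl ⟨hzero a K x hV.1 h4, fun J hJ => hV.2 J (Or.inl hJ)⟩
    · exact Or.inr ⟨hzero b K x hV.1 h4, fun J hJ => hV.2 J (Or.inr hJ)⟩

end proofs

/-- **Main theorem.** Let `X` be a projective variety over `ℚ` in `ℙ^(M - 1)` with the equations
`G k = 0`, of any dimension and with arbitrary singularities. For all finite sets `S` of primes, all
natural numbers `r` and `l` and all real numbers `A` and `B` there are a finite set `Y` of closed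
subvarieties of `X`, irreducible over `ℚ`, of positive dimension and NOT of general type, and `δ > 0`,
`κ` and `C` with the following properties.
* For all number fields `K` of degree `n ≤ r` and all bases `ω` of `K`, all sparse points `x` of `X`
  over `K` which are on no member of `Y` satisfy `h(x) ≤ κ d_S(ω) + C`, `d_S(ω)` the logarithmic
  discriminant of `ω` without the primes in `S`, and `h(x) ≤ κ d(K) + C` if `ω` is a basis of the
  `S`-integers.
* For each number field `K` of degree at most `r` the points of `X` over `K` on no member of `Y` which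
  have a sparse representative with respect to some basis of the `S`-integers of `K` are finite in
  number.
If all closed subvarieties of `X` of positive dimension are of general type, then `Y` is empty. -/
theorem result (M g : ℕ) (G : Fin g → MvPolynomial (Fin M) ℤ) (e : Fin g → ℕ)
    (hG : ∀ k, (G k).IsHomogeneous (e k)) (S : Finset ℕ) (hS : ∀ p ∈ S, p.Prime) (r l : ℕ)
    (A B : ℝ) :
    ∃ (Y : Set (Ideal (MvPolynomial (Fin M) ℚ))) (δ κ C : ℝ), Y.Finite ∧
      (∀ I ∈ Y, IsSpecial G I) ∧ 0 < δ ∧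
      (∀ (n : ℕ), n ≤ r → ∀ (K : Type) [Field K] [NumberField K]
        (ω : Module.Basis (Fin n) ℚ K) (x : Fin M → K), x ≠ 0 →
        IsSparsePoint G S l A B δ ω x → (∀ I ∈ Y, ∃ f ∈ I, aeval x f ≠ 0) →
        height x ≤ κ * logDiscBasis S ω + C ∧
        (SpansIntegers S ω → height x ≤ κ * logDisc K + C)) ∧
      ∀ (K : Type) [Field K] [NumberField K], Module.finrank ℚ K ≤ r →
        {P : Projectivization K (Fin M → K) |
          ∃ (ω : Module.Basis (Fin (Module.finrank ℚ K)) ℚ K) (x : Fin M → K)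
            (hx : x ≠ 0), P = Projectivization.mk K x hx ∧ SpansIntegers S ω ∧
            IsSparsePoint G S l A B δ ω x ∧ ∀ I ∈ Y, ∃ f ∈ I, aeval x f ≠ 0}.Finite := by
  classical
  set I0 : Ideal (MvPolynomial (Fin M) ℚ) :=
    Ideal.span (Set.range fun k => map (Int.castRingHom ℚ) (G k)) with hI0
  have hI0h : IsHomogeneousIdeal I0 := by
    refine ⟨_, ?_, rfl⟩
    rintro _ ⟨k, rfl⟩
    exact ⟨e k, (hG k).map _⟩
  obtain ⟨Y, hYf, hYs, δ, κ, C, hδ, hκ, hC, hmain⟩ := all_good G S hS r I0 hI0h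
    (fun k => Ideal.subset_span ⟨k, rfl⟩) l A |B| (abs_nonneg B)
  have hkey : ∀ (n : ℕ), n ≤ r → ∀ (K : Type) [Field K] [NumberField K]
      (ω : Module.Basis (Fin n) ℚ K) (x : Fin M → K), x ≠ 0 →
      IsSparsePoint G S l A B δ ω x → (∀ I ∈ Y, ∃ f ∈ I, aeval x f ≠ 0) →
      height x ≤ κ * logDiscBasis S ω + C ∧
      (SpansIntegers S ω → height x ≤ κ * logDisc K + C) := by
    intro n hn K _ _ ω x hx hsp hE
    obtain ⟨hX, hshort, hlog⟩ := hsp
    refine hmain n hn K ω x hx ⟨?_, hE⟩ ?_ hlog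
    · have h3 : I0 ≤ RingHom.ker (aeval x : MvPolynomial (Fin M) ℚ →ₐ[ℚ] K) := by
        rw [hI0, Ideal.span_le]
        rintro _ ⟨k, rfl⟩
        change aeval x (map (Int.castRingHom ℚ) (G k)) = 0
        rw [aeval_mapQ]
        exact hX k
      intro f hf
      exact h3 hf
    · exact Pool.Agent.Y724.T4.short_mono (z := params ω x) hshort le_rfl (le_abs_self B)
        (abs_nonneg B) le_rfl
  refine ⟨Y, δ, κ, C, hYf, hYs, hδ, hkey, ?_⟩
  intro K _ _ hKr
  have hnR : (0 : ℝ) < Module.finrank ℚ K := by exact_mod_cast Module.finrank_pos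
  refine (Pool.Agent.Y724.T4.finite_points (K := K) (M := M)
    ((κ * logDisc K + C) * Module.finrank ℚ K)).subset ?_
  rintro Q ⟨ω, x, hx, hQ, hspan, hsp, hne⟩
  refine ⟨x, hx, hQ, ?_⟩
  have h1 := (hkey _ hKr K ω x hx hsp hne).2 hspan
  unfold height at h1
  rwa [div_le_iff₀ hnR] at h1

end Pool.Agent.Results.MP_f82ddf_nt.SparsePointsAllVarieties
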